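import Pool.Agent.Lib.MP_03ede5_co.Main

set_option autoImplicit false

/-!
# Bounded-delay schedules for regular train networks in every dimension

The idea. At a common point of a line along axis `i` with direction `σ` and a line along axis `j`
with direction `τ`, the difference of the two arrival times is `(a - τ * x_j) - (b - σ * y_i)`,
where `a`, `b` are the arrival times of the two lines at the coordinate hyperplane `0`. So it is
enough to choose `a` modulo `M` so that, for every other line type `(j, τ)`, the number
`a - τ * x_j` lies in the low half (less a margin) of its class modulo `2 * B`, and `b - σ * y_i`
in the high half, `B` being a scale that depends on the crossing type only. If the `2 * d - 2`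
conditions on one line use different scales `B = 3 ^ (k + 1) * l`, they can be met one inside the
other. The scales come from a proper edge colouring, with `2 * d - 2` colours, of the complete
graph on the `2 * d` line types less the matching that joins opposite directions. Collinear tracks
that touch at an end point are taken care of by a greedy choice out of three.
-/

namespace Pool.Agent.Results.MP_03ede5_co.BoundedDelay

open Pool.Agent.Lib.MP_03ede5_co

/-- For all `d ≥ 2` and `l ≥ 1`, every regular network in `ℝ^d` with train length `l` has a
schedule all of whose delays are less than `2 * 9 ^ (d - 1) * l` (for `d = 3`: less than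
`162 * l`). -/
theorem result (d l : ℕ) (hd : 2 ≤ d) (hl : 1 ≤ l) (N : Set (TrainLine d)) (hN : IsNetwork N)
    (hreg : IsRegular N l) :
    ∃ t : TrainLine d → ℝ, IsSchedule N t ∧ ∀ L ∈ N, t L < 2 * 9 ^ (d - 1) * (l : ℝ) :=
  main hd hl hN hreg

end Pool.Agent.Results.MP_03ede5_co.BoundedDelay
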